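import Mathlib
import Pool.Agent.V11294.M2.Seven

/-!
# `p ^ 2` divides an alternating sum when `(p/7) = -1`
-/

namespace Pool.Agent.Results.MP_552068_nt.InertVanish

open Finset Pool.Agent.V11294.M2

/-- For every prime `p ≡ 3, 5, 6 (mod 7)`, `p^2` divides `∑_{m<p} (-1)^m a(m)`, where
`a(m) = ∑_{0≤k≤m} (-16)^k C(m,k)^2 C(m-k,k)^2`. -/
theorem result (p : ℕ) (hp : p.Prime) (h7 : p % 7 = 3 ∨ p % 7 = 5 ∨ p % 7 = 6) :
    (p : ℤ) ^ 2 ∣ ∑ m ∈ range p, (-1) ^ m * ∑ k ∈ range (m + 1),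
      (-16) ^ k * (m.choose k : ℤ) ^ 2 * ((m - k).choose k : ℤ) ^ 2 := by
  have hp2 : p ≠ 2 := by rintro rfl; simp at h7
  have hp7 : p ≠ 7 := by rintro rfl; simp at h7
  obtain ⟨n, hn⟩ : Odd p := hp.odd_of_ne_two hp2
  have hJ : jacobiSym p 7 = -1 := by
    rw [jacobiSym.mod_left]
    rcases h7 with h | h | h
    · have : (p : ℤ) % (7 : ℕ) = 3 := by push_cast; omega
      rw [this]; norm_num
    · have : (p : ℤ) % (7 : ℕ) = 5 := by push_cast; omega
      rw [this]; norm_num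
    · have : (p : ℤ) % (7 : ℕ) = 6 := by push_cast; omega
      rw [this]; norm_num
  apply intCast_RR_eq_zero
  have h := sum_am p n hp hn
  have hi := inert_data p n hp hn hJ (om p) (om_eq p)
  rw [F_one_inert p n hp hn hp7 (om p) (om_eq p) hi.1] at h
  exact h

end Pool.Agent.Results.MP_552068_nt.InertVanish
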